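import Pool.Agent.KS6_60.WQ.Final

/-!
# MP_b00f94_an, Q1: wavelet sets without multiplicative tiling, for all even dilation factors

`G = ℝ`. For odd numbers `d`, `k` and an odd integer `h` let `q = d k + 1` (an arbitrary even number
is of this form), `Λ = ℤ + h/(2d)` and, with `x = (q+1)/(q³-1)`, `y = (q²+1)/(q³-1)`, `s = 1/(q-1)`,
`Ω = [x,y) ∪ [s,s+1) ∪ [s+q, x+1+q) ∪ [y+1+q², s+1+q²)`. Then `Ω` is a wavelet set for the
translations `Λ` and the dilations `{± c q^n : n ∈ ℤ}`, and it tiles `ℝ` multiplicatively by no set of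
automorphisms of `ℝ`.
-/

set_option autoImplicit false

namespace Pool.Agent.Results.MP_b00f94_an.AllEvenDilations

open MeasureTheory FourierTransform Set
open scoped ENNReal InnerProductSpace

/-- the modulus of an automorphism of `ℝ`: the Lebesgue measure of the image of `[0,1]` -/
noncomputable def modulus (a : ℝ ≃ₜ+ ℝ) : ℝ := (volume (a '' Icc 0 1)).toReal

/-- `Ω` is a wavelet set in `ℝ` with respect to the dilation set `A` and the translation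
set `Λ`: with `ψ` the inverse Fourier transform of `1_Ω`, the elements
`ψ_{λ,a}(x) = Δ(a)^{1/2} ψ(a(x) - λ)` of `L²(ℝ)` are nonzero, pairwise orthogonal and span a
dense subspace. -/
def IsWaveletSet (Ω Λ : Set ℝ) (A : Set (ℝ ≃ₜ+ ℝ)) : Prop :=
  Λ.Countable ∧ A.Countable ∧ MeasurableSet Ω ∧ 0 < volume Ω ∧ volume Ω < ⊤ ∧
  ∃ ψ : Lp (α := ℝ) ℂ 2 volume,
    (𝓕 ψ : Lp (α := ℝ) ℂ 2 volume) =ᵐ[volume] Ω.indicator (fun _ => (1 : ℂ)) ∧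
    ∃ Φ : ℝ × (ℝ ≃ₜ+ ℝ) → Lp (α := ℝ) ℂ 2 volume,
      (∀ p ∈ Λ ×ˢ A, Φ p =ᵐ[volume] fun x => ((√(modulus p.2) : ℝ) : ℂ) * ψ (p.2 x - p.1)) ∧
      (∀ p ∈ Λ ×ˢ A, ∀ q ∈ Λ ×ˢ A, p ≠ q → ⟪Φ p, Φ q⟫_ℂ = 0) ∧
      (∀ p ∈ Λ ×ˢ A, Φ p ≠ 0) ∧
      (Submodule.span ℂ (Φ '' (Λ ×ˢ A))).topologicalClosure = ⊤

/-- `β` is the adjoint of `α` for the pairing `⟨ξ, x⟩ = exp (2 π i ξ x)` -/
def IsAdjoint (α β : ℝ ≃ₜ+ ℝ) : Prop :=
  ∀ ξ x : ℝ, Real.fourierChar (β ξ * x) = Real.fourierChar (ξ * α x)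

/-- `Ω` tiles multiplicatively, with multiplicity one, by the set `A'` of automorphisms,
acting through their adjoints -/
def TilesMul (Ω : Set ℝ) (A' : Set (ℝ ≃ₜ+ ℝ)) : Prop :=
  ∃ adj : (ℝ ≃ₜ+ ℝ) → (ℝ ≃ₜ+ ℝ), (∀ α, IsAdjoint α (adj α)) ∧
    ∀ᵐ ξ : ℝ, ∑' α : A', (adj α '' Ω).indicator (fun _ => (1 : ℝ≥0∞)) ξ = 1

/-- the set `Ω_q` -/
def Omega (q : ℕ) : Set ℝ :=
  Ico (((q : ℝ) + 1) / ((q : ℝ) ^ 3 - 1)) (((q : ℝ) ^ 2 + 1) / ((q : ℝ) ^ 3 - 1)) ∪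
  Ico (1 / ((q : ℝ) - 1)) (1 / ((q : ℝ) - 1) + 1) ∪
  Ico (1 / ((q : ℝ) - 1) + q) (((q : ℝ) + 1) / ((q : ℝ) ^ 3 - 1) + 1 + q) ∪
  Ico (((q : ℝ) ^ 2 + 1) / ((q : ℝ) ^ 3 - 1) + 1 + (q : ℝ) ^ 2) (1 / ((q : ℝ) - 1) + 1 + (q : ℝ) ^ 2)

/-- the translation set `ℤ + h/(2d)` -/
def Trans (d : ℕ) (h : ℤ) : Set ℝ := {x | ∃ m : ℤ, x = m + (h : ℝ) / (2 * (d : ℝ))}

/-- the dilation set `{± c q^n : n ∈ ℤ}` -/
def Dil (q : ℕ) (c : ℝ) : Set (ℝ ≃ₜ+ ℝ) :=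
  {a | ∃ n : ℤ, a 1 = c * (q : ℝ) ^ n ∨ a 1 = -(c * (q : ℝ) ^ n)}

lemma char_one {x : ℝ} (h : Real.fourierChar x = 1) : ∃ n : ℤ, x = n := by
  have h1 : (Real.fourierChar x : ℂ) = 1 := by rw [h]; rfl
  rw [Real.fourierChar_apply, Complex.exp_eq_one_iff] at h1
  obtain ⟨n, hn⟩ := h1
  refine ⟨n, ?_⟩
  have h2 : (2 * Real.pi * Complex.I : ℂ) ≠ 0 := Complex.two_pi_I_ne_zero
  have h3 : (2 * Real.pi * Complex.I : ℂ) * x = (2 * Real.pi * Complex.I) * n := by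
    rw [mul_comm _ (n : ℂ), ← hn]
    push_cast
    ring
  exact_mod_cast mul_left_cancel₀ h2 h3

lemma adjoint_eq {α β : ℝ ≃ₜ+ ℝ} (h : IsAdjoint α β) : β = α := by
  apply Pool.Agent.R290.WaveFinal.auto_ext
  by_contra hne
  have hd : β 1 - α 1 ≠ 0 := sub_ne_zero.2 hne
  have h1 := h 1 ((β 1 - α 1)⁻¹ * (1 / 2))
  have h2 : Real.fourierChar (β 1 * ((β 1 - α 1)⁻¹ * (1 / 2)) -
      1 * α ((β 1 - α 1)⁻¹ * (1 / 2))) = 1 := by
    rw [AddChar.map_sub_eq_div, h1, div_self']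
  have h3 : β 1 * ((β 1 - α 1)⁻¹ * (1 / 2)) - 1 * α ((β 1 - α 1)⁻¹ * (1 / 2)) = 1 / 2 := by
    rw [Pool.Agent.R290.WaveFinal.auto_apply α ((β 1 - α 1)⁻¹ * (1 / 2))]
    calc _ = (β 1 - α 1) * (β 1 - α 1)⁻¹ * (1 / 2) := by ring
      _ = 1 / 2 := by rw [mul_inv_cancel₀ hd, one_mul]
  rw [h3] at h2
  obtain ⟨n, hn⟩ := char_one h2
  have h4 : ((2 * n : ℤ) : ℝ) = ((1 : ℤ) : ℝ) := by push_cast; linarith
  have h5 : 2 * n = 1 := by exact_mod_cast h4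
  omega

/-- the parameters as a structure -/
lemma exists_par (d k : ℕ) (hd : Odd d) (hk : Odd k) (h : ℤ) (hh : Odd h) :
    ∃ P : KS60.WQ.Par, P.q = ((d * k + 1 : ℕ) : ℝ) ∧ P.b = (h : ℝ) / (2 * (d : ℝ)) := by
  obtain ⟨d', rfl⟩ := hd
  obtain ⟨k', rfl⟩ := hk
  obtain ⟨h', rfl⟩ := hh
  refine ⟨⟨2 * d' * k' + d' + k' + 1, by omega, ((2 * h' + 1 : ℤ) : ℝ) / (2 * ((2 * d' + 1 : ℕ) : ℝ)),
    2 * h' * k' + h' + k', ?_⟩, ?_, rfl⟩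
  · have : ((2 * d' + 1 : ℕ) : ℝ) ≠ 0 := by positivity
    push_cast at this ⊢
    field_simp
    ring
  · unfold KS60.WQ.Par.q
    push_cast
    ring

lemma Om_eq (P : KS60.WQ.Par) (q : ℕ) (hq : P.q = (q : ℝ)) : KS60.WQ.Om P = Omega q := by
  unfold KS60.WQ.Om Omega KS60.WQ.Par.x KS60.WQ.Par.y KS60.WQ.Par.s
  rw [hq]

lemma prod_eq (P : KS60.WQ.Par) (q d : ℕ) (h : ℤ) (hq : P.q = (q : ℝ))
    (hb : P.b = (h : ℝ) / (2 * (d : ℝ))) (c : ℝ) (hc : 0 < c) :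
    Trans d h ×ˢ Dil q c = range fun i : KS60.WQ.Idx =>
      (KS60.WQ.fr P i,
        Pool.Agent.R290.WaveFinal.mulE (KS60.WQ.dil P c i) (KS60.WQ.dil_ne P c hc i)) := by
  ext ⟨x, a⟩
  constructor
  · rintro ⟨⟨m, hm⟩, n, ha⟩
    obtain ⟨b, hb'⟩ : ∃ b : Bool, a 1 = KS60.WQ.sg b * c * P.q ^ n := by
      rcases ha with ha | ha
      · exact ⟨true, by rw [ha, hq]; unfold KS60.WQ.sg; simp⟩
      · exact ⟨false, by rw [ha, hq]; unfold KS60.WQ.sg; simp⟩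
    refine ⟨(b, n, m), ?_⟩
    apply Prod.ext
    · simp only [KS60.WQ.fr]
      simp only at hm
      rw [hm, hb]
    · apply Pool.Agent.R290.WaveFinal.auto_ext
      simp only [Pool.Agent.R290.WaveFinal.mulE_apply, mul_one, KS60.WQ.dil]
      rw [hb']
  · rintro ⟨⟨b, n, m⟩, h⟩
    obtain ⟨h1, h2⟩ := Prod.ext_iff.1 h
    simp only at h1 h2
    subst h1 h2
    refine ⟨⟨m, ?_⟩, n, ?_⟩
    · simp only [KS60.WQ.fr]
      rw [hb]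
    · simp only [Pool.Agent.R290.WaveFinal.mulE_apply, mul_one, KS60.WQ.dil, KS60.WQ.sg]
      rw [hq]
      cases b
      · right; simp
      · left; simp

/-- **The answer to Q1 is no, for all even dilation factors.** Let `d`, `k`, `h` be odd and
`q = d k + 1` (so `q` is even, and every even number `≥ 2` occurs). The translation set
`ℤ + h/(2d)` does not contain `0`. The set `Ω_q` is a wavelet set in `ℝ` for these translations and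
the dilations `{± c q^n : n ∈ ℤ}`, for every `c > 0`; but it tiles `ℝ` multiplicatively by no set of
automorphisms of `ℝ`, countable or not. -/
theorem result (d k : ℕ) (hd : Odd d) (hk : Odd k) (h : ℤ) (hh : Odd h) :
    (0 : ℝ) ∉ Trans d h ∧
    (∀ c : ℝ, 0 < c → IsWaveletSet (Omega (d * k + 1)) (Trans d h) (Dil (d * k + 1) c)) ∧
    ∀ A' : Set (ℝ ≃ₜ+ ℝ), ¬ TilesMul (Omega (d * k + 1)) A' := by
  obtain ⟨P, hq, hb⟩ := exists_par d k hd hk h hh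
  have hOm := Om_eq P (d * k + 1) hq
  refine ⟨?_, ?_, ?_⟩
  · rintro ⟨m, hm⟩
    have hd0 : (d : ℝ) ≠ 0 := by
      have := hd.pos
      positivity
    have h3 : ((2 * d * m + h : ℤ) : ℝ) = 0 := by
      field_simp at hm
      push_cast
      linarith
    have h4 : (2 * d * m + h : ℤ) = 0 := by exact_mod_cast h3
    obtain ⟨h', rfl⟩ := hh
    have h5 : 2 * ((d : ℤ) * m + h') = -1 := by linarith
    omega
  · intro c hc
    obtain ⟨h1, h2⟩ := KS60.WQ.wavelet P c hc (Trans d h ×ˢ Dil (d * k + 1) c)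
      (prod_eq P (d * k + 1) d h hq hb c hc)
    rw [← hOm]
    refine ⟨?_, ?_, KS60.WQ.Om_meas P, KS60.WQ.Om_vol_pos P, KS60.WQ.Om_vol P, h2⟩
    · refine (h1.image Prod.fst).mono ?_
      intro x hx
      refine ⟨(x, Pool.Agent.R290.WaveFinal.mulE c hc.ne'), ⟨hx, 0, Or.inl ?_⟩, rfl⟩
      simp [Pool.Agent.R290.WaveFinal.mulE_apply]
    · refine (h1.image Prod.snd).mono ?_
      intro a ha
      exact ⟨(((0 : ℤ) : ℝ) + (h : ℝ) / (2 * (d : ℝ)), a), ⟨⟨0, rfl⟩, ha⟩, rfl⟩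
  · rintro A' ⟨adj, hadj, h⟩
    have h1 : ∀ α, adj α = α := fun α => adjoint_eq (hadj α)
    simp only [h1] at h
    rw [← hOm] at h
    exact KS60.WQ.not_tiles P A' h

end Pool.Agent.Results.MP_b00f94_an.AllEvenDilations
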